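import Pool.Agent.H695R3.PP.Stmts

/-!
# Averages (piece AVG of h165_pieces)
-/

set_option autoImplicit false

open MeasureTheory Pool.Agent.H695R3.PP
open scoped ENNReal

namespace Pool.Agent.Run7.h67.PP

/-- Cauchy-Schwarz on a probability space. -/
theorem sq_lint_le {α : Type*} [MeasurableSpace α] (μ : Measure α) [IsProbabilityMeasure μ]
    (h : α → ℝ≥0∞) (hm : AEMeasurable h μ) : (∫⁻ a, h a ∂μ) ^ 2 ≤ ∫⁻ a, h a ^ 2 ∂μ := by
  have H := ENNReal.lintegral_mul_le_Lp_mul_Lq μ Real.HolderConjugate.two_two hm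
    (aemeasurable_const (b := (1 : ℝ≥0∞)))
  simp only [Pi.mul_apply, mul_one, ENNReal.one_rpow, lintegral_const, measure_univ] at H
  have H2 := pow_le_pow_left' H 2
  refine H2.trans (le_of_eq ?_)
  rw [← ENNReal.rpow_natCast, ← ENNReal.rpow_mul]
  norm_num

theorem meas_shift (ε : ℝ) (g : ℝ → ℝ≥0∞) (hg : Measurable g) :
    Measurable (fun p : ℝ × ℝ => g (p.1 + ε * p.2)) :=
  hg.comp (measurable_fst.add (measurable_snd.const_mul ε))

theorem avg_meas (ε : ℝ) (g : ℝ → ℝ≥0∞) (hg : Measurable g) : Measurable (avg ε g) :=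
  Measurable.lintegral_prod_right' (meas_shift ε g hg)

/-- The bound of the square of an average on a set. -/
theorem avg_set (ε : ℝ) (g : ℝ → ℝ≥0∞) (hg : Measurable g) (A B : Set ℝ)
    (hA : MeasurableSet A) (hB : MeasurableSet B)
    (hAB : ∀ s : ℝ, |s| ≤ 1 → ∀ x ∈ A, x + ε * s ∈ B) :
    ∫⁻ x in A, avg ε g x ^ 2 ≤ ∫⁻ x in B, g x ^ 2 := by
  have h1 : ∫⁻ x in A, avg ε g x ^ 2 ≤ ∫⁻ x in A, ∫⁻ s, g (x + ε * s) ^ 2 ∂U := by
    refine lintegral_mono fun x => ?_
    unfold avg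
    exact sq_lint_le U _ (hg.comp ((measurable_id.const_mul ε).const_add x)).aemeasurable
  refine h1.trans ?_
  rw [lintegral_lintegral_swap ((meas_shift ε (fun y => g y ^ 2) (hg.pow_const 2)).aemeasurable)]
  have h2 : ∀ᵐ s ∂U, ∫⁻ x in A, g (x + ε * s) ^ 2 ≤ ∫⁻ x in B, g x ^ 2 := by
    have h3 : ∀ᵐ s ∂U, |s| ≤ 1 := by
      unfold U
      refine Measure.ae_smul_measure ?_ _
      rw [ae_restrict_iff' measurableSet_Icc]
      exact Filter.Eventually.of_forall fun s hs => abs_le.2 hs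
    filter_upwards [h3] with s hs
    have h4 : ∫⁻ x in A, g (x + ε * s) ^ 2 ≤
        ∫⁻ x, (B.indicator fun y => g y ^ 2) (x + ε * s) := by
      rw [← lintegral_indicator hA]
      refine lintegral_mono fun x => ?_
      by_cases hx : x ∈ A
      · rw [Set.indicator_of_mem hx, Set.indicator_of_mem (hAB s hs x hx)]
      · rw [Set.indicator_of_notMem hx]
        exact bot_le
    refine h4.trans (le_of_eq ?_)
    rw [lintegral_add_right_eq_self, lintegral_indicator hB]
  refine (lintegral_mono_ae h2).trans (le_of_eq ?_)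
  simp

/-- Integrals in the variable `s` against `U`. -/
theorem lint_U_le (ε : ℝ) (hε : 0 < ε) (F : ℝ → ℝ≥0∞) (hF : Measurable F) (x : ℝ) :
    ∫⁻ s, F (x + ε * s) ∂U ≤ ENNReal.ofReal (1 / ε) * ∫⁻ y, F y := by
  unfold U
  rw [lintegral_smul_measure]
  have h1 : ∫⁻ s in Set.Icc (-1) 1, F (x + ε * s) ≤ ∫⁻ s, F (x + ε * s) :=
    setLIntegral_le_lintegral _ _
  have h2 : ∫⁻ s, F (x + ε * s) = ENNReal.ofReal (1 / ε) * ∫⁻ y, F y := by
    have h3 : ∫⁻ s, F (x + ε * s) = ∫⁻ y, F (x + y) ∂(Measure.map (ε * ·) volume) := by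
      have hF' : Measurable fun y => F (x + y) := hF.comp (measurable_id.const_add x)
      have hm : Measurable fun y : ℝ => ε * y := measurable_id.const_mul ε
      rw [lintegral_map hF' hm]
    rw [h3, Real.map_volume_mul_left hε.ne', lintegral_smul_measure, lintegral_add_left_eq_self,
      abs_of_pos (inv_pos.2 hε), one_div, smul_eq_mul]
  rw [smul_eq_mul]
  calc ENNReal.ofReal (1 / 2) * ∫⁻ s in Set.Icc (-1) 1, F (x + ε * s)
      ≤ 1 * ∫⁻ s, F (x + ε * s) := by
        gcongr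
        rw [← ENNReal.ofReal_one]
        exact ENNReal.ofReal_le_ofReal (by norm_num)
    _ = _ := by rw [one_mul, h2]

theorem t_AVG : TaskAvg := by
  intro ε g hε hε1 hg
  refine ⟨avg_meas ε g hg, ?_, ?_, ?_⟩
  · have := avg_set ε g hg Set.univ Set.univ MeasurableSet.univ MeasurableSet.univ
      (fun _ _ _ _ => trivial)
    simpa [nsqL] using this
  · intro c
    refine avg_set ε g hg _ _ measurableSet_Icc measurableSet_Icc ?_
    intro s hs x hx
    rw [abs_le] at hs
    simp only [Set.mem_Icc] at hx ⊢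
    have h1 : ε * s ≤ 1 := by nlinarith [hs.1, hs.2]
    have h2 : -1 ≤ ε * s := by nlinarith [hs.1, hs.2]
    constructor <;> linarith [hx.1, hx.2]
  · intro x
    have h1 : avg ε g x ^ 2 ≤ ENNReal.ofReal (1 / ε) * nsqL g :=
      (sq_lint_le U (fun s => g (x + ε * s))
        (hg.comp ((measurable_id.const_mul ε).const_add x)).aemeasurable).trans
        (lint_U_le ε hε (fun y => g y ^ 2) (hg.pow_const 2) x)
    have h2 : avg ε g x = (avg ε g x ^ 2) ^ (1 / 2 : ℝ) := by
      rw [← ENNReal.rpow_natCast, ← ENNReal.rpow_mul]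
      norm_num
    rw [h2]
    refine (ENNReal.rpow_le_rpow h1 (by norm_num)).trans (le_of_eq ?_)
    rw [ENNReal.mul_rpow_of_nonneg _ _ (by norm_num)]
    congr 1
    rw [ENNReal.ofReal_rpow_of_nonneg (by positivity) (by norm_num), ← Real.sqrt_eq_rpow,
      Real.sqrt_div zero_le_one, Real.sqrt_one]

end Pool.Agent.Run7.h67.PP
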