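import Pool.Agent.Run7.h67.PP.Avg

/-!
# Averaging loses a part of the norm unless the function is spread out (piece DICH)
-/

set_option autoImplicit false

open MeasureTheory Pool.Agent.H695R3.PP
open scoped ENNReal

namespace Pool.Agent.Run7.h67.PP

/-- The distance of two extended nonnegative numbers. -/
noncomputable def ed (a b : ℝ≥0∞) : ℝ≥0∞ := (a - b) + (b - a)

theorem ed_comm (a b : ℝ≥0∞) : ed a b = ed b a := add_comm _ _

theorem ed_sq_aux (a c : ℝ≥0∞) : ed a (a + c) ^ 2 + 2 * (a * (a + c)) = a ^ 2 + (a + c) ^ 2 := by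
  by_cases ha : a = ⊤
  · subst ha
    simp [ed]
  · unfold ed
    rw [ENNReal.add_sub_cancel_left ha, tsub_eq_zero_of_le le_self_add]
    ring

theorem ed_sq (a b : ℝ≥0∞) : ed a b ^ 2 + 2 * (a * b) = a ^ 2 + b ^ 2 := by
  rcases le_total a b with h | h
  · obtain ⟨c, rfl⟩ := exists_add_of_le h
    exact ed_sq_aux a c
  · obtain ⟨c, rfl⟩ := exists_add_of_le h
    have := ed_sq_aux b c
    rw [ed_comm, mul_comm (b + c) b, this, add_comm]

theorem ed_tri (a b c : ℝ≥0∞) : ed a c ≤ ed a b + ed b c := by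
  unfold ed
  have h1 : a - c ≤ (a - b) + (b - c) := tsub_le_tsub_add_tsub
  have h2 : c - a ≤ (c - b) + (b - a) := tsub_le_tsub_add_tsub
  calc (a - c) + (c - a) ≤ ((a - b) + (b - c)) + ((c - b) + (b - a)) := add_le_add h1 h2
    _ = _ := by ring

theorem two_sq_le (a b : ℝ≥0∞) : (a + b) ^ 2 ≤ 2 * a ^ 2 + 2 * b ^ 2 := by
  have := ed_sq a b
  calc (a + b) ^ 2 = a ^ 2 + b ^ 2 + 2 * (a * b) := by ring
    _ ≤ a ^ 2 + b ^ 2 + (a ^ 2 + b ^ 2) := by
      gcongr
      rw [← this]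
      exact le_add_self
    _ = _ := by ring

theorem sq_le_ed (a b : ℝ≥0∞) : a ^ 2 ≤ 2 * b ^ 2 + 2 * ed b a ^ 2 := by
  have h : a ≤ b + ed b a := by
    unfold ed
    rcases le_total a b with h | h
    · exact h.trans le_self_add
    · obtain ⟨c, rfl⟩ := exists_add_of_le h
      by_cases hb : b = ⊤
      · subst hb
        simp
      · rw [ENNReal.add_sub_cancel_left hb, tsub_eq_zero_of_le le_self_add, zero_add]
  exact (pow_le_pow_left' h 2).trans (two_sq_le _ _)

theorem ed_meas {α : Type*} [MeasurableSpace α] {f h : α → ℝ≥0∞} (hf : Measurable f)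
    (hh : Measurable h) : Measurable fun x => ed (f x) (h x) :=
  (hf.sub hh).add (hh.sub hf)

theorem sum_sq_le (K : ℕ) (f : ℕ → ℝ≥0∞) :
    (∑ i ∈ Finset.range K, f i) ^ 2 ≤ (K : ℝ≥0∞) * ∑ i ∈ Finset.range K, f i ^ 2 := by
  have := ENNReal.rpow_sum_le_const_mul_sum_rpow (Finset.range K) f (p := 2) (by norm_num)
  norm_num at this
  simpa using this

/-- The difference of `g` and a translate. -/
noncomputable def psi (g : ℝ → ℝ≥0∞) (u : ℝ) : ℝ≥0∞ := ∫⁻ x, ed (g (x + u)) (g x) ^ 2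

theorem psi_mul (g : ℝ → ℝ≥0∞) (hg : Measurable g) (δ : ℝ) (K : ℕ) :
    psi g (K * δ) ≤ (K : ℝ≥0∞) ^ 2 * psi g δ := by
  have h1 : ∀ x, ed (g (x + K * δ)) (g x) ≤
      ∑ i ∈ Finset.range K, ed (g (x + (i + 1 : ℕ) * δ)) (g (x + i * δ)) := by
    intro x
    induction K with
    | zero => simp [ed]
    | succ K ih =>
      rw [Finset.sum_range_succ]
      refine (ed_tri _ (g (x + K * δ)) _).trans ?_
      rw [add_comm (ed _ _)]
      exact add_le_add ih le_rfl
  have h2 : psi g (K * δ) ≤ ∫⁻ x, (K : ℝ≥0∞) *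
      ∑ i ∈ Finset.range K, ed (g (x + (i + 1 : ℕ) * δ)) (g (x + i * δ)) ^ 2 := by
    refine lintegral_mono fun x => ?_
    exact (pow_le_pow_left' (h1 x) 2).trans (sum_sq_le _ _)
  refine h2.trans (le_of_eq ?_)
  have hm : ∀ i : ℕ, Measurable fun x => ed (g (x + (i + 1 : ℕ) * δ)) (g (x + i * δ)) ^ 2 := by
    intro i
    exact (ed_meas (hg.comp (measurable_id.add_const _))
      (hg.comp (measurable_id.add_const _))).pow_const 2
  rw [lintegral_const_mul _ (Finset.measurable_fun_sum _ fun i _ => hm i),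
    lintegral_finsetSum _ fun i _ => hm i]
  have h3 : ∀ i ∈ Finset.range K,
      ∫⁻ x, ed (g (x + (i + 1 : ℕ) * δ)) (g (x + i * δ)) ^ 2 = psi g δ := by
    intro i _
    have := lintegral_add_right_eq_self (μ := (volume : Measure ℝ))
      (fun x => ed (g (x + δ)) (g x) ^ 2) (i * δ)
    unfold psi
    rw [← this]
    refine lintegral_congr fun x => ?_
    congr 3
    push_cast
    ring
  rw [Finset.sum_congr rfl h3]
  simp only [Finset.sum_const, Finset.card_range, nsmul_eq_mul]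
  ring

/-- The identity for the average of the differences. -/
theorem avg_id (ε : ℝ) (g : ℝ → ℝ≥0∞) (hg : Measurable g) :
    (∫⁻ p, psi g (ε * (p.1 - p.2)) ∂(U.prod U)) + 2 * nsqL (avg ε g) = 2 * nsqL g := by
  have m1 : Measurable fun q : ℝ × (ℝ × ℝ) => g (q.1 + ε * q.2.1) :=
    hg.comp (measurable_fst.add ((measurable_fst.comp measurable_snd).const_mul ε))
  have m2 : Measurable fun q : ℝ × (ℝ × ℝ) => g (q.1 + ε * q.2.2) :=
    hg.comp (measurable_fst.add ((measurable_snd.comp measurable_snd).const_mul ε))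
  have h1 : ∫⁻ p, psi g (ε * (p.1 - p.2)) ∂(U.prod U) =
      ∫⁻ x, ∫⁻ p : ℝ × ℝ, ed (g (x + ε * p.1)) (g (x + ε * p.2)) ^ 2 ∂(U.prod U) := by
    rw [lintegral_lintegral_swap ((ed_meas m1 m2).pow_const 2).aemeasurable]
    refine lintegral_congr fun p => ?_
    have := lintegral_add_right_eq_self (μ := (volume : Measure ℝ))
      (fun x => ed (g (x + ε * (p.1 - p.2))) (g x) ^ 2) (ε * p.2)
    unfold psi
    rw [← this]
    refine lintegral_congr fun x => ?_
    congr 3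
    ring
  have hx : ∀ x, (∫⁻ p : ℝ × ℝ, ed (g (x + ε * p.1)) (g (x + ε * p.2)) ^ 2 ∂(U.prod U)) +
      2 * avg ε g x ^ 2 = 2 * ∫⁻ s, g (x + ε * s) ^ 2 ∂U := by
    intro x
    have ms : Measurable fun s : ℝ => g (x + ε * s) :=
      hg.comp ((measurable_id.const_mul ε).const_add x)
    have mp1 : Measurable fun p : ℝ × ℝ => g (x + ε * p.1) := ms.comp measurable_fst
    have mp2 : Measurable fun p : ℝ × ℝ => g (x + ε * p.2) := ms.comp measurable_snd
    have e1 : 2 * avg ε g x ^ 2 =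
        ∫⁻ p : ℝ × ℝ, 2 * (g (x + ε * p.1) * g (x + ε * p.2)) ∂(U.prod U) := by
      have mp3 : Measurable fun p : ℝ × ℝ => g (x + ε * p.1) * g (x + ε * p.2) := mp1.mul mp2
      rw [lintegral_const_mul _ mp3,
        lintegral_prod_mul ms.aemeasurable ms.aemeasurable]
      unfold avg
      ring
    have e2 : ∫⁻ p : ℝ × ℝ, (g (x + ε * p.1) ^ 2 + g (x + ε * p.2) ^ 2) ∂(U.prod U) =
        2 * ∫⁻ s, g (x + ε * s) ^ 2 ∂U := by
      rw [lintegral_add_left (mp1.pow_const 2)]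
      have a1 := lintegral_prod_mul (μ := U) (ν := U) (f := fun s => g (x + ε * s) ^ 2)
        (g := fun _ => 1) (ms.pow_const 2).aemeasurable aemeasurable_const
      have a2 := lintegral_prod_mul (μ := U) (ν := U) (g := fun s => g (x + ε * s) ^ 2)
        (f := fun _ => 1) aemeasurable_const (ms.pow_const 2).aemeasurable
      simp only [mul_one, one_mul, lintegral_const, measure_univ] at a1 a2
      rw [a1, a2, two_mul]
    rw [e1, ← lintegral_add_left, ← e2]
    · exact lintegral_congr fun p => ed_sq _ _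
    · exact (ed_meas mp1 mp2).pow_const 2
  have h2 : nsqL g = ∫⁻ x, ∫⁻ s, g (x + ε * s) ^ 2 ∂U := by
    rw [lintegral_lintegral_swap
      ((meas_shift ε (fun y => g y ^ 2) (hg.pow_const 2)).aemeasurable)]
    have : ∀ s, ∫⁻ x, g (x + ε * s) ^ 2 = nsqL g := fun s =>
      lintegral_add_right_eq_self (μ := (volume : Measure ℝ)) (fun x => g x ^ 2) (ε * s)
    simp only [this, lintegral_const, measure_univ, mul_one]
  have m3 : Measurable fun x => ∫⁻ s, g (x + ε * s) ^ 2 ∂U :=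
    Measurable.lintegral_prod_right' (meas_shift ε (fun y => g y ^ 2) (hg.pow_const 2))
  have m4 : Measurable fun x =>
      ∫⁻ p : ℝ × ℝ, ed (g (x + ε * p.1)) (g (x + ε * p.2)) ^ 2 ∂(U.prod U) :=
    Measurable.lintegral_prod_right' ((ed_meas m1 m2).pow_const 2)
  rw [h1]
  have h3 : 2 * nsqL (avg ε g) = ∫⁻ x, 2 * avg ε g x ^ 2 := by
    unfold nsqL
    rw [lintegral_const_mul _ ((avg_meas ε g hg).pow_const 2)]
  rw [h3, ← lintegral_add_left m4, lintegral_congr hx, lintegral_const_mul _ m3, h2]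

theorem U_left : U (Set.Icc (-1) (-(1 / 2))) = ENNReal.ofReal (1 / 4) := by
  unfold U
  rw [Measure.smul_apply, Measure.restrict_apply measurableSet_Icc,
    Set.inter_eq_left.2 (Set.Icc_subset_Icc le_rfl (by norm_num)), Real.volume_Icc, smul_eq_mul,
    ← ENNReal.ofReal_mul (by norm_num)]
  norm_num

theorem U_right : U (Set.Icc (1 / 2) 1) = ENNReal.ofReal (1 / 4) := by
  unfold U
  rw [Measure.smul_apply, Measure.restrict_apply measurableSet_Icc,
    Set.inter_eq_left.2 (Set.Icc_subset_Icc (by norm_num) le_rfl), Real.volume_Icc, smul_eq_mul,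
    ← ENNReal.ofReal_mul (by norm_num)]
  norm_num

theorem psi_meas (g : ℝ → ℝ≥0∞) (hg : Measurable g) : Measurable (psi g) := by
  unfold psi
  refine Measurable.lintegral_prod_right' (f := fun q : ℝ × ℝ => ed (g (q.2 + q.1)) (g q.2) ^ 2) ?_
  exact (ed_meas (hg.comp (measurable_snd.add measurable_fst)) (hg.comp measurable_snd)).pow_const 2

/-- There is a shift of size about `ε` which moves `g` little. -/
theorem exists_shift (ε : ℝ) (g : ℝ → ℝ≥0∞) (hε : 0 < ε) (hg : Measurable g)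
    (D : ℝ≥0∞) (hD : nsqL (avg ε g) + D = nsqL g) (hfin : nsqL g ≠ ⊤) :
    ∃ δ : ℝ, ε ≤ δ ∧ psi g δ ≤ 32 * D := by
  have hfin' : nsqL (avg ε g) ≠ ⊤ := by
    intro h
    apply hfin
    rw [← hD, h, top_add]
  have hX : ∫⁻ p, psi g (ε * (p.1 - p.2)) ∂(U.prod U) = 2 * D := by
    have h1 := avg_id ε g hg
    rw [← hD, mul_add, add_comm] at h1
    exact (ENNReal.add_right_inj (ENNReal.mul_ne_top (by norm_num) hfin')).1 h1
  set A : Set (ℝ × ℝ) := Set.Icc (1 / 2) 1 ×ˢ Set.Icc (-1) (-(1 / 2)) with hA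
  have hPA : (U.prod U) A = ENNReal.ofReal (1 / 16) := by
    rw [hA, Measure.prod_prod, U_left, U_right, ← ENNReal.ofReal_mul (by norm_num)]
    norm_num
  have hm : Measurable fun p : ℝ × ℝ => psi g (ε * (p.1 - p.2)) :=
    (psi_meas g hg).comp ((measurable_fst.sub measurable_snd).const_mul ε)
  obtain ⟨p, hp, hle⟩ := exists_le_setLAverage (μ := U.prod U) (s := A)
    (f := fun p => psi g (ε * (p.1 - p.2))) (by rw [hPA]; simp) (by rw [hPA]; simp)
    hm.aemeasurable
  refine ⟨ε * (p.1 - p.2), ?_, hle.trans ?_⟩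
  · rw [hA, Set.mem_prod, Set.mem_Icc, Set.mem_Icc] at hp
    nlinarith [hp.1.1, hp.2.2]
  · rw [setLAverage_eq, hPA]
    refine ENNReal.div_le_of_le_mul ?_
    refine (setLIntegral_le_lintegral _ _).trans ?_
    rw [hX]
    have : (32 : ℝ≥0∞) = ENNReal.ofReal 32 := by norm_num
    rw [this, mul_right_comm, ← ENNReal.ofReal_mul (by norm_num)]
    norm_num

/-- The bound of the mass of an interval by the translates. -/
theorem interval_bound (g : ℝ → ℝ≥0∞) (hg : Measurable g) (y Δ : ℝ) (hΔ : 5 ≤ Δ) (N : ℕ) :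
    (N : ℝ≥0∞) * ∫⁻ x in Set.Icc y (y + 4), g x ^ 2 ≤
      2 * nsqL g + 2 * ∑ j ∈ Finset.range N, psi g ((j + 1 : ℕ) * Δ) := by
  have h1 : ∀ j : ℕ, ∫⁻ x in Set.Icc y (y + 4), g x ^ 2 ≤
      2 * (∫⁻ x in Set.Icc (y + (j + 1 : ℕ) * Δ) (y + 4 + (j + 1 : ℕ) * Δ), g x ^ 2) +
        2 * psi g ((j + 1 : ℕ) * Δ) := by
    intro j
    have e1 : ∫⁻ x in Set.Icc y (y + 4), g x ^ 2 ≤ ∫⁻ x in Set.Icc y (y + 4),
        (2 * g (x + (j + 1 : ℕ) * Δ) ^ 2 + 2 * ed (g (x + (j + 1 : ℕ) * Δ)) (g x) ^ 2) :=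
      lintegral_mono fun x => sq_le_ed _ _
    refine e1.trans ?_
    have m1 : Measurable fun x => g (x + (j + 1 : ℕ) * Δ) := hg.comp (measurable_id.add_const _)
    have m2 : Measurable fun x => ed (g (x + (j + 1 : ℕ) * Δ)) (g x) ^ 2 :=
      (ed_meas m1 hg).pow_const 2
    rw [lintegral_add_left ((m1.pow_const 2).const_mul 2), lintegral_const_mul _ (m1.pow_const 2),
      lintegral_const_mul _ m2]
    refine add_le_add (mul_le_mul_right ?_ _) (mul_le_mul_right ?_ _)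
    · rw [← lintegral_indicator measurableSet_Icc, ← lintegral_indicator measurableSet_Icc,
        ← lintegral_add_right_eq_self (μ := (volume : Measure ℝ))
          ((Set.Icc (y + (j + 1 : ℕ) * Δ) (y + 4 + (j + 1 : ℕ) * Δ)).indicator
            fun x => g x ^ 2) ((j + 1 : ℕ) * Δ)]
      refine lintegral_mono fun x => ?_
      by_cases hx : x ∈ Set.Icc y (y + 4)
      · rw [Set.indicator_of_mem hx, Set.indicator_of_mem]
        simp only [Set.mem_Icc] at hx ⊢
        constructor <;> linarith [hx.1, hx.2]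
      · rw [Set.indicator_of_notMem hx]
        exact bot_le
    · exact setLIntegral_le_lintegral _ _
  have h2 : ∑ j ∈ Finset.range N, ∫⁻ x in Set.Icc y (y + 4), g x ^ 2 ≤
      ∑ j ∈ Finset.range N,
      (2 * (∫⁻ x in Set.Icc (y + (j + 1 : ℕ) * Δ) (y + 4 + (j + 1 : ℕ) * Δ), g x ^ 2) +
        2 * psi g ((j + 1 : ℕ) * Δ)) := Finset.sum_le_sum fun j _ => h1 j
  rw [Finset.sum_const, Finset.card_range, nsmul_eq_mul] at h2
  refine h2.trans ?_
  rw [Finset.sum_add_distrib, ← Finset.mul_sum, ← Finset.mul_sum]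
  refine add_le_add (mul_le_mul_right ?_ _) le_rfl
  rw [← lintegral_biUnion_finset]
  · exact setLIntegral_le_lintegral _ _
  · have key : ∀ i j : ℕ, i < j → Disjoint
        (Set.Icc (y + (i + 1 : ℕ) * Δ) (y + 4 + (i + 1 : ℕ) * Δ))
        (Set.Icc (y + (j + 1 : ℕ) * Δ) (y + 4 + (j + 1 : ℕ) * Δ)) := by
      intro i j hij
      rw [Set.disjoint_left]
      intro x hx hx'
      have h3 : ((i : ℝ) + 1) ≤ j := by exact_mod_cast hij
      simp only [Set.mem_Icc] at hx hx'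
      push_cast at hx hx'
      nlinarith [hx.2, hx'.1]
    intro i _ j _ hij
    rcases lt_or_gt_of_ne hij with h | h
    · exact key i j h
    · exact (key j i h).symm
  · intro j _
    exact measurableSet_Icc

theorem t_DICH : TaskDich := by
  refine ⟨215424, by norm_num, ?_⟩
  intro ε g y hε hε1 hg
  by_cases hfin : nsqL g = ⊤
  · have h0 : ENNReal.ofReal (215424 / ε ^ 2) ≠ 0 := by
      simp only [ne_eq, ENNReal.ofReal_eq_zero, not_le]
      positivity
    rw [hfin, ENNReal.mul_top h0, add_top]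
    exact le_top
  obtain ⟨D, hD⟩ := exists_add_of_le (t_AVG ε g hε hε1 hg).2.1
  obtain ⟨δ, hδ, hpsi⟩ := exists_shift ε g hε hg D hD.symm hfin
  have hδ0 : 0 < δ := hε.trans_le hδ
  obtain ⟨K, hK1, hK2⟩ : ∃ K : ℕ, 5 ≤ K * δ ∧ (K : ℝ) ≤ 6 / ε := by
    refine ⟨⌈5 / δ⌉₊, ?_, ?_⟩
    · have := Nat.le_ceil (5 / δ)
      rwa [div_le_iff₀ hδ0] at this
    · have h1 := (Nat.ceil_lt_add_one (a := 5 / δ) (by positivity)).le
      have h2 : 5 / δ ≤ 5 / ε := by gcongr
      have h3 : 1 ≤ 1 / ε := by rw [le_div_iff₀ hε]; linarith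
      calc ((⌈5 / δ⌉₊ : ℕ) : ℝ) ≤ 5 / δ + 1 := h1
        _ ≤ 5 / ε + 1 / ε := add_le_add h2 h3
        _ = 6 / ε := by ring
  have h1 := interval_bound g hg y (K * δ) hK1 16
  have h2 : ∀ j : ℕ, psi g ((j + 1 : ℕ) * (K * δ)) ≤
      ((j + 1 : ℕ) : ℝ≥0∞) ^ 2 * (ENNReal.ofReal (36 / ε ^ 2) * (32 * D)) := by
    intro j
    have h3 := psi_mul g hg δ ((j + 1) * K)
    have h4 : (((j + 1) * K : ℕ) : ℝ) * δ = (j + 1 : ℕ) * (K * δ) := by
      push_cast
      ring
    rw [h4] at h3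
    refine h3.trans ?_
    rw [Nat.cast_mul, mul_pow, mul_assoc]
    refine mul_le_mul_right (mul_le_mul' ?_ hpsi) _
    have h5 : (K : ℝ≥0∞) = ENNReal.ofReal (K : ℝ) := by simp
    rw [h5, ← ENNReal.ofReal_pow (by positivity)]
    refine ENNReal.ofReal_le_ofReal ?_
    calc (K : ℝ) ^ 2 ≤ (6 / ε) ^ 2 := by gcongr
      _ = 36 / ε ^ 2 := by ring
  have h3 : ∑ j ∈ Finset.range 16, psi g ((j + 1 : ℕ) * (K * δ)) ≤
      1496 * (ENNReal.ofReal (36 / ε ^ 2) * (32 * D)) := by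
    refine (Finset.sum_le_sum fun j _ => h2 j).trans (le_of_eq ?_)
    rw [← Finset.sum_mul]
    congr 1
    norm_num [Finset.sum_range_succ]
  set J := ∫⁻ x in Set.Icc y (y + 4), g x ^ 2 with hJ
  have h4 : 16 * J ≤ 2 * nsqL g + 2 * (1496 * (ENNReal.ofReal (36 / ε ^ 2) * (32 * D))) := by
    refine le_trans ?_ (h1.trans (add_le_add le_rfl (mul_le_mul_right h3 _)))
    norm_num
  have e16 : (16 : ℝ≥0∞) = ENNReal.ofReal 16 := by norm_num
  have h5 : J ≤ ENNReal.ofReal (1 / 8) * nsqL g + ENNReal.ofReal (215424 / ε ^ 2) * D := by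
    have e1 : J = ENNReal.ofReal (1 / 16) * (16 * J) := by
      rw [← mul_assoc, e16, ← ENNReal.ofReal_mul (by norm_num)]
      norm_num
    rw [e1]
    refine (mul_le_mul_right h4 _).trans (le_of_eq ?_)
    rw [mul_add]
    congr 1
    · rw [← mul_assoc]
      congr 1
      have : (2 : ℝ≥0∞) = ENNReal.ofReal 2 := by norm_num
      rw [this, ← ENNReal.ofReal_mul (by norm_num)]
      norm_num
    · have a1 : (2 : ℝ≥0∞) = ENNReal.ofReal 2 := by norm_num
      have a2 : (1496 : ℝ≥0∞) = ENNReal.ofReal 1496 := by norm_num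
      have a3 : (32 : ℝ≥0∞) = ENNReal.ofReal 32 := by norm_num
      rw [a1, a2, a3]
      rw [← mul_assoc, ← mul_assoc, ← mul_assoc, ← mul_assoc,
        ← ENNReal.ofReal_mul (by norm_num), ← ENNReal.ofReal_mul (by norm_num),
        ← ENNReal.ofReal_mul (by norm_num), ← ENNReal.ofReal_mul (by positivity)]
      congr 2
      ring
  calc J + ENNReal.ofReal (215424 / ε ^ 2) * nsqL (avg ε g)
      ≤ (ENNReal.ofReal (1 / 8) * nsqL g + ENNReal.ofReal (215424 / ε ^ 2) * D) +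
        ENNReal.ofReal (215424 / ε ^ 2) * nsqL (avg ε g) := add_le_add h5 le_rfl
    _ = ENNReal.ofReal (1 / 8) * nsqL g + ENNReal.ofReal (215424 / ε ^ 2) * nsqL g := by
      rw [add_assoc, ← mul_add, add_comm D, ← hD]

end Pool.Agent.Run7.h67.PP
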