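import Pool.Agent.H695R3.PP.Stmts

/-!
# Inversion is an isometry of `L²` (piece ISO of h165_pieces)
-/

set_option autoImplicit false

open MeasureTheory Pool.Agent.H695R3.PP
open scoped ENNReal

namespace Pool.Agent.Run7.h67.PP

theorem ur_set (c : ℝ) (g : ℝ → ℝ≥0∞) (s : Set ℝ) (hs : MeasurableSet s) (h0 : (0 : ℝ) ∉ s) :
    ∫⁻ z in s, UR c g z ^ 2 = ∫⁻ y in (fun z : ℝ => c - z⁻¹) '' s, g y ^ 2 := by
  rw [lintegral_image_eq_lintegral_abs_deriv_mul (f' := fun z => (z ^ 2)⁻¹) hs ?_ ?_
    (fun y => g y ^ 2)]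
  · refine setLIntegral_congr_fun hs ?_
    intro z hz
    have hz0 : z ≠ 0 := fun h => h0 (h ▸ hz)
    simp only [UR]
    rw [mul_pow, ← ENNReal.ofReal_pow (by positivity)]
    congr 2
    have hp : 0 < z ^ 2 := by positivity
    rw [abs_of_pos (inv_pos.2 hp), inv_pow, sq_abs]
  · intro z hz
    have hz0 : z ≠ 0 := fun h => h0 (h ▸ hz)
    have := (hasDerivAt_inv hz0).const_sub c
    simpa using this.hasDerivWithinAt
  · intro z hz w hw h
    simpa using h

theorem t_ISO : TaskIso := by
  intro c g _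
  refine ⟨?_, ?_⟩
  · have h1 : nsqL (UR c g) = ∫⁻ z in ({0} : Set ℝ)ᶜ, UR c g z ^ 2 := by
      unfold nsqL
      rw [← setLIntegral_univ]
      refine setLIntegral_congr ?_
      exact (ae_eq_univ.2 (by simp)).symm
    have h2 : nsqL g = ∫⁻ y in ({c} : Set ℝ)ᶜ, g y ^ 2 := by
      unfold nsqL
      rw [← setLIntegral_univ]
      refine setLIntegral_congr ?_
      exact (ae_eq_univ.2 (by simp)).symm
    rw [h1, h2, ur_set c g _ (measurableSet_singleton 0).compl (by simp)]
    congr 2
    ext y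
    simp only [Set.mem_image, Set.mem_compl_iff, Set.mem_singleton_iff]
    constructor
    · rintro ⟨z, hz, rfl⟩ h
      apply hz
      have : z⁻¹ = 0 := by linarith
      simpa using this
    · intro hy
      refine ⟨(c - y)⁻¹, ?_, by simp⟩
      intro h
      rw [inv_eq_zero] at h
      apply hy
      linarith
  · have hm : MeasurableSet {z : ℝ | 1 < |z|} :=
      measurableSet_lt measurable_const (continuous_abs.measurable)
    rw [ur_set c g _ hm (by simp)]
    refine lintegral_mono_set ?_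
    rintro y ⟨z, hz, rfl⟩
    have hz' : 1 < |z| := hz
    have h : |z⁻¹| ≤ 1 := by
      rw [abs_inv]
      exact inv_le_one_of_one_le₀ hz'.le
    rw [abs_le] at h
    simp only [Set.mem_Icc]
    constructor <;> linarith [h.1, h.2]

end Pool.Agent.Run7.h67.PP
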